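import Pool.Agent.P.MP_246241_nt.TD.Geo

/-! Few residue classes avoid short vectors at all levels. -/

set_option autoImplicit false
set_option linter.unusedSectionVars false

namespace Pool.Agent.P.MP_246241_nt.TD

open Finset Matrix VN
open EK (Dl Far Prim mem_Dl)
open scoped Classical

section res
variable {D p j : ℕ} [hp : Fact p.Prime]

/-- The integer lift. -/
def lf (x : AA D p j) : Vc D := fun c => ((x c).val : ℤ)

theorem rv_lf (x : AA D p j) : rv (RR p j) (lf x) = x := funext fun c => by simp [lf]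

theorem dl_iff {i : ℕ} (h : i ≤ j) (x : AA D p j) (ρ : Vc D) :
    ρ ∈ Dl p i (lf x) ↔ (p : RR p j) ^ i ∣ rv (RR p j) ρ ⬝ᵥ x := by
  rw [mem_Dl, ← int_dvd_iff h, ← rv_dot, rv_lf]

theorem prim_lf (h : 1 ≤ j) {x : AA D p j} (hx : Pr x) : Prim p (lf x) := by
  obtain ⟨c, hc⟩ := hx
  refine ⟨c, fun d => ?_⟩
  have h1 := (int_dvd_iff h (lf x c)).2 (by rwa [pow_one])
  rw [pow_one, show ((lf x c : ℤ) : RR p j) = x c from congrFun (rv_lf x) c] at h1
  have h2 := (int_dvd_iff h 1).1 (by simpa using (isUnit_of_dvd_unit h1 hc).dvd)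
  exact (Nat.prime_iff_prime_int.1 hp.out).not_dvd_one (by rwa [pow_one] at h2)

/-- The classes without short vectors up to level `i`. -/
noncomputable def XS (D p j G i : ℕ) [Fact p.Prime] : Finset (AA D p j) :=
  {x | Pr x ∧ ∀ k ≤ i, Far p G k (Dl p k (lf x))}

theorem mem_XS {G i : ℕ} {x : AA D p j} :
    x ∈ XS D p j G i ↔ Pr x ∧ ∀ k ≤ i, Far p G k (Dl p k (lf x)) := by simp [XS]

theorem XS_anti {G i k : ℕ} (h : i ≤ k) : XS D p j G k ⊆ XS D p j G i := fun _ hx =>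
  mem_XS.2 ⟨(mem_XS.1 hx).1, fun l hl => (mem_XS.1 hx).2 l (hl.trans h)⟩

theorem XS_inv {G s : ℕ} (h1 : 1 ≤ s) (h2 : s ≤ j) {x : AA D p j} (hx : x ∈ XS D p j G s)
    (t : AA D p j) : x + (p : RR p j) ^ s • t ∈ XS D p j G s := by
  obtain ⟨⟨c, u, hu⟩, h⟩ := mem_XS.1 hx
  refine mem_XS.2 ⟨⟨c, ?_⟩, fun k hk ρ a => h k hk ρ ?_⟩
  · obtain ⟨s, rfl⟩ := Nat.exists_eq_add_of_le' h1
    have := u.isUnit.mul (unit_one_add ((p : RR p j) ^ s * t c * ((u⁻¹ : (RR p j)ˣ) : RR p j)))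
    convert this using 1
    rw [Pi.add_apply, Pi.smul_apply, smul_eq_mul, ← hu]
    linear_combination (-((p : RR p j) ^ (s + 1) * t c)) * u.mul_inv
  · rw [dl_iff (hk.trans h2)] at a ⊢
    rw [dotProduct_add, dotProduct_smul, smul_eq_mul] at a
    exact (dvd_add_left ((pow_dvd_pow _ hk).mul_right _)).1 a

theorem mart {s : ℕ} (Y : Finset (AA D p j)) (hY : ∀ x ∈ Y, ∀ t, x + (p : RR p j) ^ s • t ∈ Y)
    {ρ : AA D p j} (hρ : Pr ρ) : #{x ∈ Y | (p : RR p j) ^ s ∣ ρ ⬝ᵥ x} ≤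
      p * #{x ∈ Y | (p : RR p j) ^ (s + 1) ∣ ρ ⬝ᵥ x} := by
  obtain ⟨c, u, hu⟩ := hρ
  have h1 : ∀ r : RR p j, ρ ⬝ᵥ Pi.single c (↑u⁻¹ * r) = r := fun r => by
    rw [dotProduct_single, ← hu, Units.mul_inv_cancel_left]
  refine (card_le_card (t := (range p).biUnion fun d => {x ∈ Y | (p : RR p j) ^ (s + 1) ∣
    ρ ⬝ᵥ x}.image (· + (p : RR p j) ^ s • Pi.single c (↑u⁻¹ * (d : RR p j)))) fun x hx => ?_).trans
    (card_biUnion_le.trans ((sum_le_card_nsmul _ _ _ fun _ _ => card_image_le).trans_eq (by simp)))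
  obtain ⟨hx, a, ha⟩ := mem_filter.1 hx
  obtain ⟨a, rfl⟩ := ZMod.natCast_zmod_surjective a
  refine mem_biUnion.2 ⟨a % p, mem_range.2 (Nat.mod_lt _ hp.out.pos), mem_image.2
    ⟨x + (p : RR p j) ^ s • -Pi.single c (↑u⁻¹ * ((a % p : ℕ) : RR p j)), mem_filter.2
      ⟨hY x hx _, (a / p : ℕ), ?_⟩, by simp⟩⟩
  have := congrArg (Nat.cast : ℕ → RR p j) (Nat.div_add_mod a p)
  rw [Nat.cast_add, Nat.cast_mul] at this
  rw [dotProduct_add, dotProduct_smul, dotProduct_neg, h1, ha, smul_eq_mul, ← this]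
  ring

/-- The number of short primitive vectors. -/
noncomputable def NN (G s k : ℕ) (x : AA D p j) : ℕ :=
  #{ρ ∈ cube D (rad D G (p ^ k)) | Prim p ρ ∧ ρ ∈ Dl p s (lf x)}

theorem NN_step {G s : ℕ} (h1 : 1 ≤ s) (h2 : s + 1 ≤ j) (k : ℕ) :
    ∑ x ∈ XS D p j G s, NN G s k x ≤ p * ∑ x ∈ XS D p j G s, NN G (s + 1) k x := by
  have e : ∀ i ≤ j, ∑ x ∈ XS D p j G s, NN G i k x = ∑ ρ ∈ cube D (rad D G (p ^ k)) with Prim p ρ,
      #{x ∈ XS D p j G s | (p : RR p j) ^ i ∣ rv (RR p j) ρ ⬝ᵥ x} := fun i hi => by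
    simp only [NN, ← filter_filter, dl_iff hi, card_filter _ (filter _ _),
      card_filter _ (XS D p j G s)]
    exact sum_comm
  rw [e s (by omega), e _ h2, mul_sum]
  refine sum_le_sum fun ρ hρ => mart _ (fun x hx t => XS_inv h1 (by omega) hx t) ?_
  obtain ⟨c, hc⟩ := (mem_filter.1 hρ).2
  exact ⟨c, unit_int hc⟩

end res

theorem NN_zero {n p j G s k i : ℕ} [Fact p.Prime] {x : AA (n + 1) p j}
    (hx : x ∈ XS (n + 1) p j G i) (h1 : k ≤ i) (h2 : k ≤ s) : NN G s k x = 0 := by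
  refine card_eq_zero.2 (filter_eq_empty_iff.2 fun ρ hρ ⟨⟨c, hc⟩, h⟩ => hc ?_)
  rw [far_zero ((mem_XS.1 hx).2 k h1) ((pow_dvd_pow _ h2).trans h) (mem_cube.1 hρ)]
  exact dvd_zero _

theorem geo_sum {θ : ℝ} (h0 : 0 ≤ θ) (h1 : θ < 1) (W : Finset ℕ) (s : ℕ) :
    ∑ k ∈ W, (if s ≤ k then θ ^ (k - s) else 0) ≤ (1 - θ)⁻¹ := by
  rw [← sum_filter, ← sum_image (f := fun m => θ ^ m) (g := fun k => k - s) fun a ha b hb e => by
    have := (mem_filter.1 ha).2
    have := (mem_filter.1 hb).2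
    simp only at e
    omega, ← tsum_geometric_of_lt_one h0 h1]
  exact (summable_geometric_of_lt_one h0 h1).sum_le_tsum _ fun _ _ => pow_nonneg h0 _

theorem win (n : ℕ) (hn : 1 ≤ n) (p : ℕ) [hp : Fact p.Prime] : ∃ (G₀ : ℕ) (c : ℝ), 1 ≤ G₀ ∧
    0 < c ∧ ∀ G j i : ℕ, G₀ ≤ G → 1 ≤ i → i + 2 * G ≤ j →
    (#(XS (n + 1) p j G (i + 2 * G)) : ℝ) ≤ (1 - c) * #(XS (n + 1) p j G i) := by
  obtain ⟨C, C0, hU⟩ := upb n hn
  obtain ⟨G₀, G1, hL⟩ := lowb n hn
  have t0 : 0 ≤ tt n := by linarith [tt_ge n]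
  have t1 := sub_pos.2 (tt_lt n)
  have p0 : (0 : ℝ) < p := by exact_mod_cast hp.out.pos
  set A : ℝ := p * C * (1 + (1 - tt n)⁻¹) with hA
  have A0 : 0 < A := by positivity
  refine ⟨G₀, 1 / (2 * (n + 2) ^ (n + 1)) / A, G1, by positivity, fun G j i hG hi hj => ?_⟩
  have G0 : (0 : ℝ) < G := by exact_mod_cast G1.trans hG
  set Φ : ℕ → AA (n + 1) p j → ℝ := fun s x =>
    ∑ k ∈ Ico (i + G) (i + 2 * G), (NN G s k x : ℝ) * (p : ℝ) ^ s / (p : ℝ) ^ k with hΦ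
  have cW : (#(Ico (i + G) (i + 2 * G)) : ℝ) = G := by rw [Nat.card_Ico]; congr 1; omega
  have up : ∀ s, 1 ≤ j → ∀ x ∈ XS (n + 1) p j G s, Φ (s + 1) x ≤ A := fun s j1 x hx => by
    refine (sum_le_sum (g := fun k => p * C * (1 / G + if s ≤ k then tt n ^ (k - s) else 0))
      fun k _ => ?_).trans ?_
    · split_ifs with h
      · obtain ⟨m, rfl⟩ := Nat.exists_eq_add_of_le h
        have := hU p G s m (lf x) _ hp.out (G1.trans hG) (prim_lf j1 (mem_XS.1 hx).1)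
          ((mem_XS.1 hx).2 s le_rfl) fun ρ (hρ : ρ ∈ {ρ ∈ cube (n + 1) (rad (n + 1) G (p ^ (s + m))) |
            Prim p ρ ∧ ρ ∈ Dl p (s + 1) (lf x)}) => ⟨(mem_filter.1 hρ).1,
              (pow_dvd_pow _ s.le_succ).trans (mem_filter.1 hρ).2.2⟩
        rw [Nat.add_sub_cancel_left, div_le_iff₀ (by positivity)]
        exact (mul_le_mul_of_nonneg_right this (by positivity)).trans_eq (by ring)
      · rw [NN_zero hx (by omega) (by omega)]
        simp only [Nat.cast_zero, zero_mul, zero_div]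
        positivity
    · rw [← mul_sum, sum_add_distrib, sum_const, nsmul_eq_mul, cW, mul_one_div_cancel G0.ne']
      exact mul_le_mul_of_nonneg_left (add_le_add le_rfl (geo_sum t0 (tt_lt n) _ s))
        (by positivity)
  have step : ∀ s, 1 ≤ s → s + 1 ≤ j → ∑ x ∈ XS (n + 1) p j G s, Φ s x ≤
      ∑ x ∈ XS (n + 1) p j G (s + 1), Φ (s + 1) x +
        A * (#(XS (n + 1) p j G s) - #(XS (n + 1) p j G (s + 1))) := fun s h1 h2 => by
    have a1 : ∑ x ∈ XS (n + 1) p j G s, Φ s x ≤ ∑ x ∈ XS (n + 1) p j G s, Φ (s + 1) x := by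
      simp only [hΦ]
      rw [sum_comm, sum_comm (s := XS (n + 1) p j G s)]
      refine sum_le_sum fun k _ => ?_
      rw [← sum_div, ← sum_div, ← sum_mul, ← sum_mul, pow_succ', ← mul_assoc, mul_comm _ (p : ℝ)]
      gcongr
      exact_mod_cast NN_step h1 h2 k
    have a2 := XS_anti (D := n + 1) (p := p) (j := j) (G := G) s.le_succ
    rw [← sum_sdiff a2 (f := Φ (s + 1)), add_comm (∑ x ∈ _ \ _, _)] at a1
    refine a1.trans (add_le_add le_rfl ((sum_le_card_nsmul _ _ A fun x hx =>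
      up s (by omega) x (mem_sdiff.1 hx).1).trans_eq ?_))
    rw [nsmul_eq_mul, card_sdiff_of_subset a2, Nat.cast_sub (card_le_card a2), mul_comm]
  have tel : ∀ t, i + t ≤ j → ∑ x ∈ XS (n + 1) p j G i, Φ i x ≤
      ∑ x ∈ XS (n + 1) p j G (i + t), Φ (i + t) x +
        A * (#(XS (n + 1) p j G i) - #(XS (n + 1) p j G (i + t))) := fun t => by
    induction t with
    | zero => simp
    | succ t ih =>
      intro h
      have := step (i + t) (by omega) h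
      rw [← add_assoc]
      linarith [ih (by omega)]
  have a1 := tel _ hj
  rw [sum_eq_zero (s := XS (n + 1) p j G (i + 2 * G)) fun x hx => sum_eq_zero fun k hk => by
    rw [NN_zero hx (mem_Ico.1 hk).2.le (mem_Ico.1 hk).2.le]; simp] at a1
  have a2 : (#(XS (n + 1) p j G i) : ℝ) * (1 / (2 * (n + 2) ^ (n + 1))) ≤
      ∑ x ∈ XS (n + 1) p j G i, Φ i x := by
    rw [← nsmul_eq_mul]
    refine card_nsmul_le_sum _ _ _ fun x hx => le_trans (le_of_eq ?_) (card_nsmul_le_sum _ _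
      (1 / (2 * ((n : ℝ) + 2) ^ (n + 1) * G)) fun k hk => ?_)
    · rw [nsmul_eq_mul, cW]; field_simp
    · obtain ⟨m, rfl⟩ := Nat.exists_eq_add_of_le (show i ≤ k by have := mem_Ico.1 hk; omega)
      have : (p : ℝ) ^ m ≤ 2 * (n + 2) ^ (n + 1) * G * NN G i (i + m) x := by
        exact_mod_cast hL p G i m (lf x) hp.out hG (by have := mem_Ico.1 hk; omega)
          (prim_lf (by omega) (mem_XS.1 hx).1) ((mem_XS.1 hx).2 i le_rfl)
      rw [div_le_div_iff₀ (by positivity) (by positivity), pow_add]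
      exact (one_mul _).trans_le ((mul_le_mul_of_nonneg_left this (by positivity)).trans_eq
        (by ring))
  have a3 := a2.trans a1
  rw [zero_add, ← div_le_iff₀' A0, mul_div_assoc] at a3
  linarith

theorem dens (n : ℕ) (hn : 1 ≤ n) (p : ℕ) [Fact p.Prime] (ε : ℝ) (hε : 0 < ε) :
    ∃ K₀ G₀ : ℕ, ∀ G j : ℕ, G₀ ≤ G → K₀ * G ≤ j →
      (#(XS (n + 1) p j G j) : ℝ) ≤ ε * ((p : ℝ) ^ j) ^ (n + 1) := by
  obtain ⟨G₀, c, G1, c0, h⟩ := win n hn p
  have d0 : 0 ≤ max 0 (1 - c) := le_max_left _ _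
  obtain ⟨t, ht⟩ := exists_pow_lt_of_lt_one hε (show max 0 (1 - c) < 1 from
    max_lt one_pos (by linarith))
  refine ⟨2 * t + 1, G₀, fun G j hG hj => ?_⟩
  have key : ∀ s, 1 + 2 * G * s ≤ j → (#(XS (n + 1) p j G (1 + 2 * G * s)) : ℝ) ≤
      max 0 (1 - c) ^ s * ((p : ℝ) ^ j) ^ (n + 1) := fun s => by
    induction s with
    | zero =>
      intro _
      rw [pow_zero, one_mul]
      exact_mod_cast (card_le_univ _).trans_eq card_AA
    | succ s ih =>
      rw [Nat.mul_succ, ← add_assoc, pow_succ', mul_assoc (max 0 (1 - c))]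
      exact fun a => (h G j _ hG (by omega) a).trans (mul_le_mul (le_max_right _ _) (ih (by omega))
        (Nat.cast_nonneg _) d0)
  have a : 1 + 2 * G * t ≤ j := by nlinarith
  exact (Nat.cast_le.2 (card_le_card (XS_anti a))).trans ((key t a).trans
    (mul_le_mul_of_nonneg_right ht.le (by positivity)))

end Pool.Agent.P.MP_246241_nt.TD
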