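import Pool.Agent.P.MP_246241_nt.VN.THYP

/-! Counting points of a lattice without short vectors in a cube. -/

set_option autoImplicit false
set_option linter.unusedSectionVars false

namespace Pool.Agent.P.MP_246241_nt.TD

open Finset Matrix VN
open EK (Dl Far Prim mem_Dl)
open scoped Classical

/-- The largest `y` with `G y ^ D ≤ N`. -/
def rad (D G N : ℕ) : ℕ := Nat.findGreatest (fun r => G * r ^ D ≤ N) N

theorem rad_le {n : ℕ} (G N : ℕ) : G * rad (n + 1) G N ^ (n + 1) ≤ N := by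
  rcases Nat.eq_zero_or_pos (rad (n + 1) G N) with h | h
  · rw [h]; simp
  · exact Nat.findGreatest_of_ne_zero (P := fun r => G * r ^ (n + 1) ≤ N) rfl h.ne'

theorem lt_rad {n G : ℕ} (hG : 1 ≤ G) (N : ℕ) : N < G * (rad (n + 1) G N + 1) ^ (n + 1) := by
  by_contra h
  push Not at h
  have h2 : rad (n + 1) G N + 1 ≤ N :=
    (Nat.le_self_pow n.succ_ne_zero _).trans ((Nat.le_mul_of_pos_left _ hG).trans h)
  have h3 : rad (n + 1) G N + 1 ≤ rad (n + 1) G N :=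
    Nat.le_findGreatest (P := fun r => G * r ^ (n + 1) ≤ N) h2 h
  omega

/-- The integer points of a cube. -/
noncomputable def cube (D y : ℕ) : Finset (Vc D) := Fintype.piFinset fun _ => Icc (-(y : ℤ)) y

theorem mem_cube {D y : ℕ} {ρ : Vc D} : ρ ∈ cube D y ↔ ∀ c, |ρ c| ≤ y :=
  Fintype.mem_piFinset.trans (forall_congr' fun _ => mem_Icc.trans abs_le.symm)

theorem card_cube (D y : ℕ) : #(cube D y) = (2 * y + 1) ^ D := by
  rw [cube, Fintype.card_piFinset]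
  simp only [Int.card_Icc, prod_const, card_univ, Fintype.card_fin]
  congr 1
  omega

theorem far_zero {n p G i : ℕ} {X : Set (Vc (n + 1))} (h : Far p G i X) {ρ : Vc (n + 1)}
    (h1 : ρ ∈ X) (h2 : ∀ c, |ρ c| ≤ rad (n + 1) G (p ^ i)) : ρ = 0 :=
  h ρ h1 fun c => (mul_le_mul_of_nonneg_left (pow_le_pow_left₀ (abs_nonneg _) (h2 c) _)
    (Nat.cast_nonneg G)).trans (by exact_mod_cast rad_le G (p ^ i))

theorem Dl_sub {D p i : ℕ} {u a b : Vc D} (ha : a ∈ Dl p i u) (hb : b ∈ Dl p i u) :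
    a - b ∈ Dl p i u := by
  rw [mem_Dl, sub_dotProduct]; exact dvd_sub ha hb

theorem Dl_add {D p i : ℕ} {u a b : Vc D} (ha : a ∈ Dl p i u) (hb : b ∈ Dl p i u) :
    a + b ∈ Dl p i u := by
  rw [mem_Dl, add_dotProduct]; exact dvd_add ha hb

theorem Dl_vecMul {D p i : ℕ} {u : Vc D} {M : Mt D} (h : ∀ a, M a ∈ Dl p i u) (σ : Vc D) :
    σ ᵥ* M ∈ Dl p i u := by
  rw [mem_Dl, ← dotProduct_mulVec]
  exact dvd_sum fun a _ => Dvd.dvd.mul_left (h a) _

/-- Separated points in a hyperplane. -/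
theorem plane {n : ℕ} (hn : 1 ≤ n) (P : Finset (Vc (n + 1))) (y r : ℕ) (ξ : Fin (n + 1) → ℝ)
    (h0 : ξ ≠ 0) (h1 : ∀ ρ ∈ P, (∀ c, |ρ c| ≤ y) ∧ rv ℝ ρ ⬝ᵥ ξ = 0)
    (h2 : ∀ ρ ∈ P, ∀ ρ' ∈ P, (∀ c, |(ρ - ρ') c| ≤ r) → ρ = ρ') :
    #P ≤ (2 * y / (r / n + 1) + 1) ^ n := by
  obtain ⟨c₀, -, hc⟩ := exists_max_image univ (fun c => |ξ c|) univ_nonempty
  have hp : 0 < |ξ c₀| := by
    obtain ⟨c, e⟩ := Function.ne_iff.1 h0
    exact (abs_pos.2 e).trans_le (hc c (mem_univ _))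
  set s := r / n with hs
  have hns : n * s ≤ r := Nat.mul_div_le r n
  refine le_trans (card_le_card_of_injOn
    (t := Fintype.piFinset fun _ : Fin n => range (2 * y / (s + 1) + 1))
    (fun ρ c => (ρ (c₀.succAbove c) + y).toNat / (s + 1)) (fun ρ hρ => ?_) fun ρ hρ ρ' hρ' e => ?_)
    (by simp)
  · refine Fintype.mem_piFinset.2 fun c => mem_range.2 (Nat.lt_succ_of_le (Nat.div_le_div_right ?_))
    have := abs_le.1 ((h1 ρ hρ).1 (c₀.succAbove c))
    omega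
  · have h3 : ∀ c : Fin n, |(ρ - ρ') (c₀.succAbove c)| ≤ s := fun c => by
      have a1 := abs_le.1 ((h1 ρ hρ).1 (c₀.succAbove c))
      have a2 := abs_le.1 ((h1 ρ' hρ').1 (c₀.succAbove c))
      have a3 : (ρ (c₀.succAbove c) + y).toNat / (s + 1) =
        (ρ' (c₀.succAbove c) + y).toNat / (s + 1) := congrFun e c
      have a4 := Nat.div_add_mod (ρ (c₀.succAbove c) + y).toNat (s + 1)
      have a5 := Nat.div_add_mod (ρ' (c₀.succAbove c) + y).toNat (s + 1)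
      have a6 := Nat.mod_lt (ρ (c₀.succAbove c) + y).toNat (y := s + 1) s.succ_pos
      have a7 := Nat.mod_lt (ρ' (c₀.succAbove c) + y).toNat (y := s + 1) s.succ_pos
      rw [a3] at a4
      generalize (s + 1) * ((ρ' (c₀.succAbove c) + y).toNat / (s + 1)) = A at a4 a5
      generalize (ρ (c₀.succAbove c) + y).toNat % (s + 1) = B at a4 a6
      generalize (ρ' (c₀.succAbove c) + y).toNat % (s + 1) = B' at a5 a7
      rw [Pi.sub_apply, abs_le]
      omega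
    refine h2 ρ hρ ρ' hρ' fun c => Fin.succAboveCases c₀ ?_ (fun c => (h3 c).trans ?_) c
    · have e1 : ∑ c, (((ρ - ρ') c : ℤ) : ℝ) * ξ c = 0 := by
        have a1 := (h1 ρ hρ).2
        have a2 := (h1 ρ' hρ').2
        simp only [dotProduct, rv_apply] at a1 a2
        simp only [Pi.sub_apply, Int.cast_sub, sub_mul, sum_sub_distrib, a1, a2, sub_zero]
      rw [Fin.sum_univ_succAbove _ c₀, add_eq_zero_iff_eq_neg] at e1
      have e2 := congrArg abs e1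
      rw [abs_neg, abs_mul] at e2
      have e3 : |∑ c : Fin n, (((ρ - ρ') (c₀.succAbove c) : ℤ) : ℝ) * ξ (c₀.succAbove c)| ≤
          n * s * |ξ c₀| := by
        refine (abs_sum_le_sum_abs _ _).trans ((sum_le_card_nsmul _ _ ((s : ℝ) * |ξ c₀|)
          fun c _ => ?_).trans_eq (by simp [mul_assoc]))
        rw [abs_mul]
        exact mul_le_mul (by exact_mod_cast h3 c) (hc _ (mem_univ _)) (abs_nonneg _)
          (Nat.cast_nonneg _)
      have e4 := le_of_mul_le_mul_right (e2.trans_le e3) hp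
      have e5 : |(ρ - ρ') c₀| ≤ ((n * s : ℕ) : ℤ) := by exact_mod_cast e4
      exact e5.trans (by exact_mod_cast hns)
    · exact_mod_cast (Nat.le_mul_of_pos_left s hn).trans hns

/-- The ratio of the geometric series. -/
noncomputable def tt (n : ℕ) : ℝ := 1 - 1 / (2 * (n + 1))

theorem tt_ge (n : ℕ) : 1 / 2 ≤ tt n := by
  have : (1 : ℝ) / (2 * (n + 1)) ≤ 1 / 2 :=
    one_div_le_one_div_of_le (by norm_num) (by linarith [(Nat.cast_nonneg n : (0 : ℝ) ≤ n)])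
  rw [tt]; linarith

theorem tt_lt (n : ℕ) : tt n < 1 := sub_lt_self _ (by positivity)

theorem tt_pow (n : ℕ) : 1 / 2 ≤ tt n ^ (n + 1) := by
  have h := one_add_mul_le_pow (a := -(1 / (2 * ((n : ℝ) + 1)))) (by
    have := tt_ge n
    rw [tt] at this; linarith) (n + 1)
  refine le_trans (le_of_eq ?_) h
  push_cast; field_simp; ring

/-- Either independent points or few points. -/
theorem dich {n p G i m y : ℕ} (hn : 1 ≤ n) (hp : 2 ≤ p) (hG : 1 ≤ G) {u : Vc (n + 1)}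
    (hF : Far p G i (Dl p i u)) (P : Finset (Vc (n + 1)))
    (hP : ∀ ρ ∈ P, (∀ c, |ρ c| ≤ y) ∧ ρ ∈ Dl p i u) (hy : G * y ^ (n + 1) ≤ p ^ (i + m)) :
    (∃ M : Mt (n + 1), (∀ a, M a ∈ P) ∧ M.det ≠ 0) ∨
      (#P : ℝ) ≤ (2 * n + 1) ^ n * ((p : ℝ) * tt n) ^ m := by
  refine or_iff_not_imp_left.2 fun h => ?_
  push Not at h
  obtain ⟨ξ, h0, h1⟩ := p_HYP (n + 1) (rv ℝ '' (P : Set (Vc (n + 1)))) fun M hM => by
    choose f hf e using hM
    have : M = rd ℝ (Matrix.of f) := by ext a c; rw [← e a]; rfl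
    rw [this, det_rd, h (Matrix.of f) hf, Int.cast_zero]
  set r := rad (n + 1) G (p ^ i)
  have h2 := plane hn P y r ξ h0 (fun ρ hρ => ⟨(hP ρ hρ).1, h1 _ ⟨ρ, hρ, rfl⟩⟩)
    fun ρ hρ ρ' hρ' e => sub_eq_zero.1 (far_zero hF (Dl_sub (hP ρ hρ).2 (hP ρ' hρ').2) e)
  have p2 : (2 : ℝ) ≤ p := by exact_mod_cast hp
  set t : ℝ := max 1 (y / (r + 1)) with ht
  have t1 : 1 ≤ t := le_max_left _ _
  have h3 : t ^ (n + 1) ≤ (p : ℝ) ^ m := by
    rcases le_total ((y : ℝ) / (r + 1)) 1 with a | a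
    · rw [ht, max_eq_left a, one_pow]; exact one_le_pow₀ (by linarith)
    · rw [ht, max_eq_right a, div_pow, div_le_iff₀ (by positivity)]
      have a1 : G * y ^ (n + 1) ≤ G * (p ^ m * (r + 1) ^ (n + 1)) := by
        refine hy.trans ?_
        rw [pow_add, mul_comm, mul_left_comm]
        exact Nat.mul_le_mul_left _ (lt_rad hG _).le
      exact_mod_cast Nat.le_of_mul_le_mul_left a1 hG
  have h4 : t ^ n ≤ ((p : ℝ) * tt n) ^ m := by
    have := tt_ge n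
    refine le_of_pow_le_pow_left₀ n.succ_ne_zero (by positivity) ?_
    rw [← pow_mul, mul_comm n, pow_mul, ← pow_mul _ m, mul_comm m, pow_mul]
    refine (pow_le_pow_left₀ (by positivity) h3 n).trans ?_
    rw [← pow_mul, mul_comm m, pow_mul]
    refine pow_le_pow_left₀ (by positivity) ?_ m
    rw [mul_pow, pow_succ, mul_assoc]
    exact le_mul_of_one_le_right (by positivity) (by have : 1 / 2 ≤ tt n ^ n.succ := tt_pow n; nlinarith)
  have h5 : ((2 * y / (r / n + 1) + 1 : ℕ) : ℝ) ≤ (2 * n + 1) * t := by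
    have a1 : r + 1 ≤ n * (r / n + 1) := Nat.lt_mul_div_succ r hn
    have a2 : 2 * y / (r / n + 1) * (r + 1) ≤ 2 * n * y :=
      calc _ ≤ 2 * y / (r / n + 1) * (n * (r / n + 1)) := Nat.mul_le_mul_left _ a1
        _ = n * (2 * y / (r / n + 1) * (r / n + 1)) := by ring
        _ ≤ n * (2 * y) := Nat.mul_le_mul_left _ (Nat.div_mul_le_self _ _)
        _ = _ := by ring
    generalize 2 * y / (r / n + 1) = z at a2
    have a3 : (z : ℝ) ≤ 2 * n * (y / (r + 1)) := by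
      rw [← mul_div_assoc, le_div_iff₀ (by positivity)]; exact_mod_cast a2
    have a4 := mul_le_mul_of_nonneg_left (le_max_right 1 ((y : ℝ) / (r + 1)))
      (show (0 : ℝ) ≤ 2 * n by positivity)
    push_cast
    linarith
  calc (#P : ℝ) ≤ ((2 * y / (r / n + 1) + 1 : ℕ) : ℝ) ^ n := by exact_mod_cast h2
    _ ≤ ((2 * n + 1) * t) ^ n := pow_le_pow_left₀ (Nat.cast_nonneg _) h5 n
    _ ≤ _ := by rw [mul_pow]; exact mul_le_mul_of_nonneg_left h4 (by positivity)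

/-- Reduction modulo independent points. -/
theorem red {D y : ℕ} (M : Mt D) (h0 : M.det ≠ 0) (h1 : ∀ a c, |M a c| ≤ y) (v : Vc D) :
    ∃ σ : Vc D, ∀ c, |(v - σ ᵥ* M) c| ≤ (D * y : ℕ) := by
  have hu : IsUnit (rd ℝ M).det := by rw [det_rd]; exact (Int.cast_ne_zero.2 h0).isUnit
  set t := rv ℝ v ᵥ* (rd ℝ M)⁻¹ with ht
  refine ⟨fun a => ⌊t a⌋, fun c => ?_⟩
  have e : rv ℝ v = t ᵥ* rd ℝ M := by rw [ht, vecMul_vecMul, nonsing_inv_mul _ hu, vecMul_one]
  have e2 : (((v - (fun a => ⌊t a⌋) ᵥ* M) c : ℤ) : ℝ) = ∑ a, Int.fract (t a) * M a c := by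
    have := congrFun e c
    simp only [rv_apply, vecMul, dotProduct, rd_apply] at this
    simp only [Pi.sub_apply, Int.cast_sub, this, vecMul, dotProduct, Int.cast_sum, Int.cast_mul,
      ← sum_sub_distrib, Int.fract, sub_mul]
  have e3 : |(((v - (fun a => ⌊t a⌋) ᵥ* M) c : ℤ) : ℝ)| ≤ (D * y : ℕ) := by
    rw [e2]
    refine (abs_sum_le_sum_abs _ _).trans ((sum_le_card_nsmul _ _ (y : ℝ)
      fun a _ => ?_).trans_eq (by simp))
    rw [abs_mul, abs_of_nonneg (Int.fract_nonneg _)]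
    exact (mul_le_of_le_one_left (abs_nonneg _) (Int.fract_lt_one _).le).trans
      (by exact_mod_cast h1 a c)
  exact_mod_cast e3

theorem full {D p i y : ℕ} (hp : p.Prime) {u : Vc D} (hu : Prim p u) (M : Mt D) (h0 : M.det ≠ 0)
    (P : Finset (Vc D)) (hP : ∀ ρ ∈ P, (∀ c, |ρ c| ≤ y) ∧ ρ ∈ Dl p i u) (hM : ∀ a, M a ∈ P) :
    #P * p ^ i ≤ (2 * ((D + 1) * y) + 1) ^ D := by
  obtain ⟨a, ha⟩ := hu
  choose σ hσ using fun r : ℕ => red M h0 (fun b => (hP _ (hM b)).1) (Pi.single a (r : ℤ))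
  rw [← card_range (p ^ i), ← card_product, ← card_cube]
  refine card_le_card_of_injOn (fun x => x.1 + (Pi.single a (x.2 : ℤ) - σ x.2 ᵥ* M))
    (fun x hx => mem_cube.2 fun c => ?_) ?_
  · have a1 := (hP _ (mem_product.1 hx).1).1 c
    have a2 := hσ x.2 c
    refine (abs_add_le _ _).trans ?_
    push_cast at a2 ⊢
    linarith
  · rintro ⟨ρ, r⟩ h1 ⟨ρ', r'⟩ h2 (e : ρ + _ = ρ' + _)
    simp only [coe_product, Set.mem_prod, mem_coe, mem_range] at h1 h2
    have e1 := congrArg (· ⬝ᵥ u) e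
    simp only [add_dotProduct, sub_dotProduct, single_dotProduct] at e1
    have d : ∀ s, (p : ℤ) ^ i ∣ σ s ᵥ* M ⬝ᵥ u := fun s => Dl_vecMul (fun b => (hP _ (hM b)).2) _
    have e2 : (p : ℤ) ^ i ∣ ((r : ℤ) - r') * u a := by
      rw [show ((r : ℤ) - r') * u a = ρ' ⬝ᵥ u - ρ ⬝ᵥ u + (σ r ᵥ* M ⬝ᵥ u - σ r' ᵥ* M ⬝ᵥ u) by
        linear_combination e1]
      exact dvd_add (dvd_sub (hP _ h2.1).2 (hP _ h1.1).2) (dvd_sub (d r) (d r'))
    have e3 := (((Nat.prime_iff_prime_int.1 hp).coprime_iff_not_dvd.2 ha).pow_left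
      (m := i)).dvd_of_dvd_mul_right e2
    have e4 := Int.eq_zero_of_abs_lt_dvd e3 (by
      have a1 : (r : ℤ) < p ^ i := mod_cast h1.2
      have a2 : (r' : ℤ) < p ^ i := mod_cast h2.2
      rw [abs_lt]; omega)
    obtain rfl : r = r' := by omega
    rw [add_right_cancel e]

/-- The upper bound. -/
theorem upb (n : ℕ) (hn : 1 ≤ n) : ∃ C : ℝ, 0 < C ∧ ∀ (p G i m : ℕ) (u : Vc (n + 1))
    (P : Finset (Vc (n + 1))), p.Prime → 1 ≤ G → Prim p u → Far p G i (Dl p i u) →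
    (∀ ρ ∈ P, ρ ∈ cube (n + 1) (rad (n + 1) G (p ^ (i + m))) ∧ ρ ∈ Dl p i u) →
    (#P : ℝ) ≤ C * (p : ℝ) ^ m * (1 / G + tt n ^ m) := by
  refine ⟨(2 * n + 5) ^ (n + 1), by positivity, fun p G i m u P hp hG hu hF hP => ?_⟩
  have t0 : 0 ≤ tt n := by linarith [tt_ge n]
  have p0 : (0 : ℝ) < p := by exact_mod_cast hp.pos
  have G0 : (0 : ℝ) < G := by exact_mod_cast hG
  have hy := rad_le (n := n) G (p ^ (i + m))
  generalize rad (n + 1) G (p ^ (i + m)) = y at hP hy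
  have hP' : ∀ ρ ∈ P, (∀ c, |ρ c| ≤ y) ∧ ρ ∈ Dl p i u := fun ρ h => (hP ρ h).imp mem_cube.1 id
  rcases dich hn hp.two_le hG hF P hP' hy with ⟨M, h1, h0⟩ | h
  · have y1 : 1 ≤ y := by
      by_contra a
      refine h0 (det_eq_zero_of_row_eq_zero 0 fun c => ?_)
      have := (hP' _ (h1 0)).1 c
      rw [abs_le] at this
      omega
    have a1 := (full hp hu M h0 P hP' h1).trans
      (Nat.pow_le_pow_left (show _ ≤ (2 * n + 5) * y by nlinarith) _)
    have a2 : G * #P * p ^ i ≤ (2 * n + 5) ^ (n + 1) * p ^ m * p ^ i :=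
      calc _ = G * (#P * p ^ i) := by ring
        _ ≤ G * ((2 * n + 5) * y) ^ (n + 1) := Nat.mul_le_mul_left _ a1
        _ = (2 * n + 5) ^ (n + 1) * (G * y ^ (n + 1)) := by rw [mul_pow]; ring
        _ ≤ (2 * n + 5) ^ (n + 1) * p ^ (i + m) := Nat.mul_le_mul_left _ hy
        _ = _ := by ring
    have a3 : (G : ℝ) * #P ≤ (2 * n + 5) ^ (n + 1) * (p : ℝ) ^ m := by
      exact_mod_cast Nat.le_of_mul_le_mul_right a2 (pow_pos hp.pos i)
    refine le_trans ?_ (mul_le_mul_of_nonneg_left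
      (le_add_of_nonneg_right (pow_nonneg t0 m)) (by positivity))
    rwa [mul_one_div, le_div_iff₀' G0]
  · refine h.trans ?_
    rw [mul_pow, ← mul_assoc]
    refine mul_le_mul (mul_le_mul_of_nonneg_right ?_ (by positivity))
      (le_add_of_nonneg_left (by positivity)) (pow_nonneg t0 m) (by positivity)
    have n0 : (0 : ℝ) ≤ n := Nat.cast_nonneg n
    exact (pow_le_pow_left₀ (by positivity) (by linarith) n).trans
      (pow_le_pow_right₀ (by linarith) n.le_succ)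

/-- The lower bound. -/
theorem lowb (n : ℕ) (hn : 1 ≤ n) : ∃ G₀ : ℕ, 1 ≤ G₀ ∧ ∀ (p G i m : ℕ) (u : Vc (n + 1)),
    p.Prime → G₀ ≤ G → G ≤ m → Prim p u → Far p G i (Dl p i u) →
    p ^ m ≤ 2 * (n + 2) ^ (n + 1) * G *
      #{ρ ∈ cube (n + 1) (rad (n + 1) G (p ^ (i + m))) | Prim p ρ ∧ ρ ∈ Dl p i u} := by
  have t0 : 0 ≤ tt n := by linarith [tt_ge n]
  obtain ⟨G₀, hG₀⟩ := Filter.eventually_atTop.1 ((tendsto_self_mul_const_pow_of_lt_one t0
    (tt_lt n)).eventually_lt_const (show (0 : ℝ) < 1 / ((n + 2) ^ (n + 1) * (2 * n + 1) ^ n) by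
      positivity))
  refine ⟨G₀ + 1, by omega, fun p G i m u hp hG hm hu hF => ?_⟩
  have G1 : 1 ≤ G := by omega
  have hR := rad_le (n := n) G (p ^ (i + m))
  have hR' := lt_rad (n := n) G1 (p ^ (i + m))
  generalize rad (n + 1) G (p ^ (i + m)) = R at hR hR' ⊢
  set y := R / (n + 2)
  have y1 : (n + 2) * y ≤ R := Nat.mul_div_le R _
  have y2 : R + 1 ≤ (n + 2) * (y + 1) := Nat.lt_mul_div_succ R (by omega)
  have q0 : (0 : ℤ) < (p : ℤ) ^ i := by have := hp.pos; positivity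
  obtain ⟨P, hP, hc⟩ : ∃ P : Finset (Vc (n + 1)), (∀ ρ ∈ P, (∀ c, |ρ c| ≤ y) ∧ ρ ∈ Dl p i u) ∧
      (y + 1) ^ (n + 1) ≤ p ^ i * #P := by
    obtain ⟨ρ₀, h0, hmax⟩ := exists_max_image
      (Fintype.piFinset fun _ : Fin (n + 1) => Icc (0 : ℤ) y)
      (fun ρ₀ => #{ρ ∈ Fintype.piFinset fun _ : Fin (n + 1) => Icc (0 : ℤ) y |
        ρ ⬝ᵥ u % (p : ℤ) ^ i = ρ₀ ⬝ᵥ u % (p : ℤ) ^ i}) ⟨0, by simp⟩
    refine ⟨{ρ ∈ Fintype.piFinset fun _ : Fin (n + 1) => Icc (0 : ℤ) y |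
      ρ ⬝ᵥ u % (p : ℤ) ^ i = ρ₀ ⬝ᵥ u % (p : ℤ) ^ i}.image (· - ρ₀), fun ρ hρ => ?_, ?_⟩
    · obtain ⟨ρ, h1, rfl⟩ := mem_image.1 hρ
      refine ⟨fun c => ?_, ?_⟩
      · have a1 := mem_Icc.1 (Fintype.mem_piFinset.1 (mem_filter.1 h1).1 c)
        have a2 := mem_Icc.1 (Fintype.mem_piFinset.1 h0 c)
        rw [Pi.sub_apply, abs_le]
        omega
      · rw [mem_Dl, sub_dotProduct]
        exact Int.ModEq.dvd (mem_filter.1 h1).2.symm
    · rw [card_image_of_injective _ (sub_left_injective)]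
      have a1 := card_le_mul_card_image_of_maps_to (f := fun ρ : Vc (n + 1) => ρ ⬝ᵥ u % (p : ℤ) ^ i)
        (s := Fintype.piFinset fun _ : Fin (n + 1) => Icc (0 : ℤ) y) (t := Ico 0 ((p : ℤ) ^ i))
        (fun ρ _ => mem_Ico.2 ⟨Int.emod_nonneg _ q0.ne', Int.emod_lt_of_pos _ q0⟩)
        #{ρ ∈ Fintype.piFinset fun _ : Fin (n + 1) => Icc (0 : ℤ) y |
          ρ ⬝ᵥ u % (p : ℤ) ^ i = ρ₀ ⬝ᵥ u % (p : ℤ) ^ i} fun b _ => by
          rcases eq_empty_or_nonempty {ρ ∈ Fintype.piFinset fun _ : Fin (n + 1) => Icc (0 : ℤ) y |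
            ρ ⬝ᵥ u % (p : ℤ) ^ i = b} with e | ⟨ρ₁, e⟩
          · rw [e]; exact Nat.zero_le _
          · rw [← (mem_filter.1 e).2]; exact hmax ρ₁ (mem_filter.1 e).1
      rw [mul_comm]
      refine le_trans (le_of_eq ?_) (a1.trans_eq ?_)
      · simp
      · rw [Int.card_Ico, sub_zero]
        congr 1
  have h1 : p ^ m < (n + 2) ^ (n + 1) * G * #P := by
    refine Nat.lt_of_mul_lt_mul_left (a := p ^ i) ?_
    calc _ = p ^ (i + m) := (pow_add _ _ _).symm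
      _ < _ := hR'
      _ ≤ G * ((n + 2) * (y + 1)) ^ (n + 1) := Nat.mul_le_mul_left _ (Nat.pow_le_pow_left y2 _)
      _ = G * (n + 2) ^ (n + 1) * (y + 1) ^ (n + 1) := by rw [mul_pow, mul_assoc]
      _ ≤ G * (n + 2) ^ (n + 1) * (p ^ i * #P) := Nat.mul_le_mul_left _ hc
      _ = _ := by ring
  have yR : y ≤ R := Nat.div_le_self _ _
  obtain ⟨ρ₁, b1, b2, b3⟩ : ∃ ρ₁ : Vc (n + 1), (∀ c, |ρ₁ c| ≤ ((n + 1) * y : ℕ)) ∧ Prim p ρ₁ ∧
      ρ₁ ∈ Dl p i u := by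
    rcases dich hn hp.two_le G1 hF P hP
      ((Nat.mul_le_mul_left _ (Nat.pow_le_pow_left yR _)).trans hR) with ⟨M, a1, a0⟩ | h
    · by_cases hM : ∃ b, Prim p (M b)
      · obtain ⟨b, hb⟩ := hM
        exact ⟨M b, fun c => ((hP _ (a1 b)).1 c).trans (by
          exact_mod_cast Nat.le_mul_of_pos_left _ n.succ_pos), hb, (hP _ (a1 b)).2⟩
      · obtain ⟨a, ha⟩ := hu
        obtain ⟨b, hb⟩ : ∃ b, b ≠ a := by
          have : Nontrivial (Fin (n + 1)) := Fin.nontrivial_iff_two_le.2 (by omega)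
          exact exists_ne a
        obtain ⟨σ, hσ⟩ := red M a0 (fun b => (hP _ (a1 b)).1)
          (Pi.single b (u a) - Pi.single a (u b))
        refine ⟨_, hσ, ⟨b, fun h => ha ?_⟩, Dl_sub ?_ (Dl_vecMul (fun b => (hP _ (a1 b)).2) σ)⟩
        · have d : (p : ℤ) ∣ (σ ᵥ* M) b := by
            show (p : ℤ) ∣ ∑ c, σ c * M c b
            refine dvd_sum fun c _ => Dvd.dvd.mul_left ?_ (σ c)
            by_contra a2
            exact hM ⟨c, b, a2⟩
          have := dvd_add h d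
          simpa [Pi.single_eq_of_ne hb] using this
        · rw [mem_Dl, sub_dotProduct, single_dotProduct, single_dotProduct, mul_comm, sub_self]
          exact dvd_zero _
    · exfalso
      have a1 : (p : ℝ) ^ m < (n + 2) ^ (n + 1) * G * #P := by exact_mod_cast h1
      have a2 := hG₀ G (by omega)
      rw [lt_div_iff₀ (by positivity)] at a2
      have a3 : tt n ^ m ≤ tt n ^ G := pow_le_pow_of_le_one t0 (tt_lt n).le hm
      have p0 : (0 : ℝ) < (p : ℝ) ^ m := by have := hp.pos; positivity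
      have a4 : (#P : ℝ) ≤ (2 * n + 1) ^ n * ((p : ℝ) ^ m * tt n ^ G) := by
        refine h.trans ?_
        rw [mul_pow]
        gcongr
      have a5 := mul_le_mul_of_nonneg_left a4 (show (0 : ℝ) ≤ (n + 2) ^ (n + 1) * G by positivity)
      nlinarith
  have h2 : #P ≤ 2 * #{ρ ∈ cube (n + 1) R | Prim p ρ ∧ ρ ∈ Dl p i u} := by
    rw [← card_filter_add_card_filter_not (s := P) (Prim p), two_mul]
    refine add_le_add (card_le_card fun ρ hρ => ?_)
      (card_le_card_of_injOn (· + ρ₁) (fun ρ hρ => ?_) (add_left_injective ρ₁).injOn)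
    · have a := mem_filter.1 hρ
      exact mem_filter.2 ⟨mem_cube.2 fun c => ((hP _ a.1).1 c).trans (by exact_mod_cast yR),
        a.2, (hP _ a.1).2⟩
    · have a := mem_filter.1 hρ
      refine mem_filter.2 ⟨mem_cube.2 fun c => (abs_add_le _ _).trans ?_, ?_,
        Dl_add (hP _ a.1).2 b3⟩
      · have a1 := (hP _ a.1).1 c
        have a2 := b1 c
        have a3 : ((n : ℤ) + 2) * y ≤ R := by exact_mod_cast y1
        push_cast at a2
        linarith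
      · obtain ⟨c, hc⟩ := b2
        refine ⟨c, fun h => hc ((dvd_add_right ?_).1 h)⟩
        by_contra a2
        exact a.2 ⟨c, a2⟩
  refine h1.le.trans ((Nat.mul_le_mul_left _ h2).trans_eq ?_)
  ring

end Pool.Agent.P.MP_246241_nt.TD
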